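import Pool.Agent.MVO.StmtsL

namespace Pool.Agent.MVO.H53

theorem exUp (S : Finset ℕ) (hS : S.Nonempty) : ∃ f : ℕ → ℕ, Monotone f ∧ (∀ j, f j ∈ S) ∧
    (∀ s ∈ S, f s = s) ∧ (∀ x, ∀ s ∈ S, s ≤ x → s ≤ f x) ∧ (∀ x, (∃ s ∈ S, s ≤ x) → f x ≤ x) ∧
    (∀ x, (¬ ∃ s ∈ S, s ≤ x) → f x = S.min' hS) := by
  classical
  set f : ℕ → ℕ := fun j => if h : (S.filter (fun s => s ≤ j)).Nonempty
    then (S.filter (fun s => s ≤ j)).max' h else S.min' hS with hf
  have h1 : ∀ x, ∀ s ∈ S, s ≤ x → s ≤ f x := by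
    intro x s hs hsx
    have hm : s ∈ S.filter (fun s => s ≤ x) := Finset.mem_filter.mpr ⟨hs, hsx⟩
    have hne : (S.filter (fun s => s ≤ x)).Nonempty := ⟨s, hm⟩
    simp only [hf]
    rw [dif_pos hne]
    exact Finset.le_max' _ s hm
  have h2 : ∀ x, (∃ s ∈ S, s ≤ x) → f x ≤ x ∧ f x ∈ S := by
    intro x hx
    obtain ⟨s, hs, hsx⟩ := hx
    have hne : (S.filter (fun s => s ≤ x)).Nonempty := ⟨s, Finset.mem_filter.mpr ⟨hs, hsx⟩⟩
    simp only [hf]
    rw [dif_pos hne]
    have := Finset.mem_filter.mp (Finset.max'_mem _ hne)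
    exact ⟨this.2, this.1⟩
  have h3 : ∀ x, (¬ ∃ s ∈ S, s ≤ x) → f x = S.min' hS := by
    intro x hx
    have hne : ¬ (S.filter (fun s => s ≤ x)).Nonempty := by
      rintro ⟨s, hs⟩
      exact hx ⟨s, (Finset.mem_filter.mp hs).1, (Finset.mem_filter.mp hs).2⟩
    simp only [hf]
    rw [dif_neg hne]
  have h4 : ∀ j, f j ∈ S := by
    intro j
    by_cases hx : ∃ s ∈ S, s ≤ j
    · exact (h2 j hx).2
    · rw [h3 j hx]; exact Finset.min'_mem _ _
  refine ⟨f, ?_, h4, ?_, h1, fun x hx => (h2 x hx).1, h3⟩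
  · intro x y hxy
    by_cases hx : ∃ s ∈ S, s ≤ x
    · exact h1 y (f x) (h4 x) ((h2 x hx).1.trans hxy)
    · rw [h3 x hx]; exact Finset.min'_le _ _ (h4 y)
  · intro s hs
    exact le_antisymm (h2 s ⟨s, hs, le_refl s⟩).1 (h1 s s hs (le_refl s))

theorem exDn (S : Finset ℕ) (hS : S.Nonempty) : ∃ f : ℕ → ℕ, Monotone f ∧ (∀ j, f j ∈ S) ∧
    (∀ s ∈ S, f s = s) ∧ (∀ x, ∀ s ∈ S, x ≤ s → f x ≤ s) ∧ (∀ x, (∃ s ∈ S, x ≤ s) → x ≤ f x) ∧
    (∀ x, (¬ ∃ s ∈ S, x ≤ s) → f x = S.max' hS) := by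
  classical
  set f : ℕ → ℕ := fun j => if h : (S.filter (fun s => j ≤ s)).Nonempty
    then (S.filter (fun s => j ≤ s)).min' h else S.max' hS with hf
  have h1 : ∀ x, ∀ s ∈ S, x ≤ s → f x ≤ s := by
    intro x s hs hsx
    have hm : s ∈ S.filter (fun s => x ≤ s) := Finset.mem_filter.mpr ⟨hs, hsx⟩
    have hne : (S.filter (fun s => x ≤ s)).Nonempty := ⟨s, hm⟩
    simp only [hf]
    rw [dif_pos hne]
    exact Finset.min'_le _ s hm
  have h2 : ∀ x, (∃ s ∈ S, x ≤ s) → x ≤ f x ∧ f x ∈ S := by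
    intro x hx
    obtain ⟨s, hs, hsx⟩ := hx
    have hne : (S.filter (fun s => x ≤ s)).Nonempty := ⟨s, Finset.mem_filter.mpr ⟨hs, hsx⟩⟩
    simp only [hf]
    rw [dif_pos hne]
    have := Finset.mem_filter.mp (Finset.min'_mem _ hne)
    exact ⟨this.2, this.1⟩
  have h3 : ∀ x, (¬ ∃ s ∈ S, x ≤ s) → f x = S.max' hS := by
    intro x hx
    have hne : ¬ (S.filter (fun s => x ≤ s)).Nonempty := by
      rintro ⟨s, hs⟩
      exact hx ⟨s, (Finset.mem_filter.mp hs).1, (Finset.mem_filter.mp hs).2⟩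
    simp only [hf]
    rw [dif_neg hne]
  have h4 : ∀ j, f j ∈ S := by
    intro j
    by_cases hx : ∃ s ∈ S, j ≤ s
    · exact (h2 j hx).2
    · rw [h3 j hx]; exact Finset.max'_mem _ _
  refine ⟨f, ?_, h4, ?_, h1, fun x hx => (h2 x hx).1, h3⟩
  · intro x y hxy
    by_cases hy : ∃ s ∈ S, y ≤ s
    · exact h1 x (f y) (h4 y) (hxy.trans (h2 y hy).1)
    · rw [h3 y hy]; exact Finset.le_max' _ _ (h4 x)
  · intro s hs
    exact le_antisymm (h1 s s hs (le_refl s)) (h2 s ⟨s, hs, le_refl s⟩).1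

theorem min_le_of (S S' : Finset ℕ) (hS : S.Nonempty) (hS' : S'.Nonempty) (h2 : 2 ≤ S'.card)
    (g : ℕ → ℕ) (hg : ∀ x, (∃ s ∈ S', x ≤ s) → x ≤ g x)
    (hg' : ∀ x, (¬ ∃ s ∈ S', x ≤ s) → g x = S'.max' hS') (himg : S.image g = S') :
    S.min' hS ≤ S'.min' hS' := by
  have hm : S'.min' hS' ∈ S.image g := himg ▸ Finset.min'_mem _ _
  obtain ⟨s, hs, hgs⟩ := Finset.mem_image.mp hm
  have h1 := Finset.min'_le S s hs
  by_cases hx : ∃ t ∈ S', s ≤ t
  · have := hg s hx
    omega
  · exfalso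
    have h3 := hg' s hx
    have h4 : S'.min' hS' < S'.max' hS' := Finset.min'_lt_max'_of_card _ (by omega)
    omega

theorem max_ge_of (S S' : Finset ℕ) (hS : S.Nonempty) (hS' : S'.Nonempty) (h2 : 2 ≤ S'.card)
    (g : ℕ → ℕ) (hg : ∀ x, (∃ s ∈ S', s ≤ x) → g x ≤ x)
    (hg' : ∀ x, (¬ ∃ s ∈ S', s ≤ x) → g x = S'.min' hS') (himg : S.image g = S') :
    S'.max' hS' ≤ S.max' hS := by
  have hm : S'.max' hS' ∈ S.image g := himg ▸ Finset.max'_mem _ _
  obtain ⟨s, hs, hgs⟩ := Finset.mem_image.mp hm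
  have h1 := Finset.le_max' S s hs
  by_cases hx : ∃ t ∈ S', t ≤ s
  · have := hg s hx
    omega
  · exfalso
    have h3 := hg' s hx
    have h4 : S'.min' hS' < S'.max' hS' := Finset.min'_lt_max'_of_card _ (by omega)
    omega

theorem sep : SepStmt := by
  classical
  intro S S' hS hS' hne hc h2
  obtain ⟨u, u1, u2, u3, u4, u5, u6⟩ := exUp S hS
  obtain ⟨d, d1, d2, d3, d4, d5, d6⟩ := exDn S hS
  obtain ⟨u', u1', u2', u3', u4', u5', u6'⟩ := exUp S' hS'
  obtain ⟨d', d1', d2', d3', d4', d5', d6'⟩ := exDn S' hS'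
  have sub : ∀ (A B : Finset ℕ) (f : ℕ → ℕ), (∀ j, f j ∈ B) → A.image f ⊆ B := by
    intro A B f hf y hy
    obtain ⟨x, _, rfl⟩ := Finset.mem_image.mp hy
    exact hf x
  by_cases i1 : S'.image u = S
  swap
  · exact Or.inl ⟨u, u1, u2, u3, Finset.ssubset_iff_subset_ne.mpr ⟨sub _ _ _ u2, i1⟩⟩
  by_cases i2 : S'.image d = S
  swap
  · exact Or.inl ⟨d, d1, d2, d3, Finset.ssubset_iff_subset_ne.mpr ⟨sub _ _ _ d2, i2⟩⟩
  have hcard : S'.card = S.card := by
    have : S.card ≤ S'.card := by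
      rw [← i1]; exact Finset.card_image_le
    omega
  refine Or.inr ⟨hcard, ?_⟩
  by_cases i3 : S.image u' = S'
  swap
  · exact ⟨u', u1', u2', u3', Finset.ssubset_iff_subset_ne.mpr ⟨sub _ _ _ u2', i3⟩⟩
  by_cases i4 : S.image d' = S'
  swap
  · exact ⟨d', d1', d2', d3', Finset.ssubset_iff_subset_ne.mpr ⟨sub _ _ _ d2', i4⟩⟩
  exfalso
  apply hne
  have m1 := min_le_of S S' hS hS' (by omega) d' d5' d6' i4
  have m2 := min_le_of S' S hS' hS (by omega) d d5 d6 i2
  have M1 := max_ge_of S S' hS hS' (by omega) u' u5' u6' i3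
  have M2 := max_ge_of S' S hS' hS (by omega) u u5 u6 i1
  have hmin : S.min' hS = S'.min' hS' := le_antisymm m1 m2
  have hmax : S.max' hS = S'.max' hS' := le_antisymm M2 M1
  have iu : Set.InjOn u S' := by
    apply Finset.injOn_of_card_image_eq
    rw [i1, hcard]
  have id' : Set.InjOn d S' := by
    apply Finset.injOn_of_card_image_eq
    rw [i2, hcard]
  have hsub : S ⊆ S' := by
    intro s hs
    -- counts
    have c1 : (S'.filter (fun x => x < s)).card = (S.filter (fun x => x < s)).card := by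
      have : (S'.filter (fun x => x < s)).image u = S.filter (fun x => x < s) := by
        ext y
        constructor
        · intro hy
          obtain ⟨x, hx, rfl⟩ := Finset.mem_image.mp hy
          obtain ⟨hx1, hx2⟩ := Finset.mem_filter.mp hx
          refine Finset.mem_filter.mpr ⟨u2 x, ?_⟩
          have h3 : S.min' hS ≤ x := by rw [hmin]; exact Finset.min'_le _ _ hx1
          have h4 := u5 x ⟨_, Finset.min'_mem S hS, h3⟩
          omega
        · intro hy
          obtain ⟨hy1, hy2⟩ := Finset.mem_filter.mp hy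
          rw [← i1] at hy1
          obtain ⟨x, hx, hxy⟩ := Finset.mem_image.mp hy1
          refine Finset.mem_image.mpr ⟨x, Finset.mem_filter.mpr ⟨hx, ?_⟩, hxy⟩
          by_contra hcon
          push Not at hcon
          have := u4 x s hs hcon
          omega
      rw [← this]
      refine (Finset.card_image_of_injOn ?_).symm
      exact iu.mono (by intro x hx; exact (Finset.mem_filter.mp hx).1)
    have c2 : (S'.filter (fun x => x ≤ s)).card = (S.filter (fun x => x ≤ s)).card := by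
      have : (S'.filter (fun x => x ≤ s)).image d = S.filter (fun x => x ≤ s) := by
        ext y
        constructor
        · intro hy
          obtain ⟨x, hx, rfl⟩ := Finset.mem_image.mp hy
          obtain ⟨hx1, hx2⟩ := Finset.mem_filter.mp hx
          exact Finset.mem_filter.mpr ⟨d2 x, d4 x s hs hx2⟩
        · intro hy
          obtain ⟨hy1, hy2⟩ := Finset.mem_filter.mp hy
          rw [← i2] at hy1
          obtain ⟨x, hx, hxy⟩ := Finset.mem_image.mp hy1
          refine Finset.mem_image.mpr ⟨x, Finset.mem_filter.mpr ⟨hx, ?_⟩, hxy⟩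
          have h3 : x ≤ S.max' hS := by rw [hmax]; exact Finset.le_max' _ _ hx
          have h4 := d5 x ⟨_, Finset.max'_mem S hS, h3⟩
          omega
      rw [← this]
      refine (Finset.card_image_of_injOn ?_).symm
      exact id'.mono (by intro x hx; exact (Finset.mem_filter.mp hx).1)
    have c3 : ∀ T : Finset ℕ, s ∈ T →
        (T.filter (fun x => x ≤ s)).card = (T.filter (fun x => x < s)).card + 1 := by
      intro T hT
      have : T.filter (fun x => x ≤ s) = insert s (T.filter (fun x => x < s)) := by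
        ext y
        simp only [Finset.mem_filter, Finset.mem_insert]
        constructor
        · rintro ⟨h1, h2⟩
          rcases Nat.lt_or_ge y s with h | h
          · exact Or.inr ⟨h1, h⟩
          · exact Or.inl (le_antisymm h2 h)
        · rintro (h | ⟨h1, h2⟩)
          · rw [h]; exact ⟨hT, le_refl s⟩
          · exact ⟨h1, h2.le⟩
      rw [this, Finset.card_insert_of_notMem]
      intro h
      exact absurd (Finset.mem_filter.mp h).2 (lt_irrefl s)
    by_contra hcon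
    have c4 : S'.filter (fun x => x ≤ s) = S'.filter (fun x => x < s) := by
      refine Finset.filter_congr (fun x hx => ?_)
      constructor
      · intro h
        rcases Nat.lt_or_ge x s with h' | h'
        · exact h'
        · exact absurd ((le_antisymm h h') ▸ hx) hcon
      · intro h; exact h.le
    have c5 := c3 S hs
    rw [c4] at c2
    omega
  exact Finset.eq_of_subset_of_card_le hsub hcard.le

end Pool.Agent.MVO.H53
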